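import Pool.Agent.Helper38.UN.St

/-!
Project UN (MP_d629b1_an), module RD2: radius, second part.
-/

set_option autoImplicit false

noncomputable section

namespace Pool.Agent.Helper40.UN38

open Pool.Agent.Helper71.UN Pool.Agent.Helper38.UN
open Set Filter Topology Matrix
open scoped ContDiff ComplexConjugate

variable {κ J : Type} {n : ℕ}

private theorem cw_compact (N : Nw κ J n) (j : J) (b : Bool) : IsCompact (cw N j b) := by
  unfold cw
  rw [segment_eq_image']
  exact isCompact_Icc.image (by fun_prop)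

private theorem cw_nonempty (N : Nw κ J n) (j : J) (b : Bool) : (cw N j b).Nonempty :=
  ⟨_, left_mem_segment ℝ _ _⟩

private theorem notMem_cw (N : Nw κ J n) {S : Finset ℤ} {r₁ r₂ : ℝ} (h : NwOK N S r₁ r₂)
    (j : J) (b : Bool) (c : κ) (a : Fin n)
    (h1 : ¬ (N.pos c a = N.sp j b ∨ N.pos c a = N.sp j b + N.d j)) :
    N.pos c a ∉ cw N j b := by
  intro hm
  unfold cw at hm
  rw [segment_eq_image'] at hm
  obtain ⟨t, ht, hte⟩ := hm
  simp only [add_sub_cancel_left] at hte
  push Not at h1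
  rcases ht.1.lt_or_eq with h0 | h0
  · rcases ht.2.lt_or_eq with h2 | h2
    · exact h.avoid j b c a t h0 h2 (by rw [← hte]; simp)
    · apply h1.2
      rw [← hte, h2]
      simp
  · apply h1.1
    rw [← hte, ← h0]
    simp

theorem hRD2 : StRD2 := by
  intro κ J _ _ n N S r₁ r₂ h
  have hA : ∀ᶠ r in 𝓝[>] (0 : ℝ), ∀ j b c a, ∀ y ∈ cw N j b, ‖y - N.pos c a‖ < 2 * r →
      N.pos c a = N.sp j b ∨ N.pos c a = N.sp j b + N.d j := by
    rw [Filter.eventually_all]
    intro j
    rw [Filter.eventually_all]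
    intro b
    rw [Filter.eventually_all]
    intro c
    rw [Filter.eventually_all]
    intro a
    by_cases h1 : N.pos c a = N.sp j b ∨ N.pos c a = N.sp j b + N.d j
    · exact Filter.Eventually.of_forall fun r y _ _ => h1
    · have h2 := notMem_cw N h j b c a h1
      have h3 : 0 < Metric.infDist (N.pos c a) (cw N j b) :=
        ((cw_compact N j b).isClosed.notMem_iff_infDist_pos (cw_nonempty N j b)).1 h2
      filter_upwards [Ioo_mem_nhdsGT (half_pos h3)] with r hr y hy hlt
      exfalso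
      have h4 : Metric.infDist (N.pos c a) (cw N j b) ≤ dist (N.pos c a) y :=
        Metric.infDist_le_dist_of_mem hy
      rw [dist_comm, dist_eq_norm] at h4
      have := hr.2
      linarith
  have hB : ∀ᶠ r in 𝓝[>] (0 : ℝ), ∀ j b, ∀ y ∈ cw N j b,
      r₁ + 2 * r < ‖y‖ ∧ ‖y‖ + 2 * r < r₂ := by
    rw [Filter.eventually_all]
    intro j
    rw [Filter.eventually_all]
    intro b
    obtain ⟨y₁, hy₁, hm₁⟩ := (cw_compact N j b).exists_isMinOn (cw_nonempty N j b)
      (f := fun y : ℂ => ‖y‖) continuous_norm.continuousOn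
    obtain ⟨y₂, hy₂, hm₂⟩ := (cw_compact N j b).exists_isMaxOn (cw_nonempty N j b)
      (f := fun y : ℂ => ‖y‖) continuous_norm.continuousOn
    have h1 : 0 < ‖y₁‖ - r₁ := sub_pos.2 (h.walls j b y₁ hy₁).1
    have h2 : 0 < r₂ - ‖y₂‖ := sub_pos.2 (h.walls j b y₂ hy₂).2
    filter_upwards [Ioo_mem_nhdsGT (half_pos h1), Ioo_mem_nhdsGT (half_pos h2)] with r hr hr' y hy
    have h3 : ‖y₁‖ ≤ ‖y‖ := hm₁ hy
    have h4 : ‖y‖ ≤ ‖y₂‖ := hm₂ hy
    have h5 := hr.2
    have h6 := hr'.2
    constructor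
    · linarith
    · linarith
  exact hA.and hB

end Pool.Agent.Helper40.UN38
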